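import Pool.Agent.Boole2.Main

/-!
# The sharp `L²`-`L¹` constant for homogeneous Boolean quadratic forms is `2`

Proof by helper10, formalised by helper10 (cube analysis, merging, assembly), helper51 (matrix
inequalities), helper43 (test function) and helper71 (scalar inequalities).

Outline.  We prove `E|c + q| ≥ ‖q‖₂ / 2` for all real `c` and all homogeneous quadratic `q` by
induction on the number of variables.  If it fails for `f = c + q` with `‖q‖₂ = 1`, then
substituting `x_j := ± x_i` and using the induction hypothesis bounds the degree-two Fourier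
coefficients of `|f|`, while the contraction `|f|` of `f` does not increase the Dirichlet form and
so has large degree-two weight.  The resulting inequality between traces of powers of the matrix
of `q` forces `c` to be small and the matrix to be nearly of rank one, and then the explicit test
function `-√3 (X - 4 X³ / 9)`, `X = Re ∏ (1 + i u_k x_k) / √(1 + u_k²)`, shows `E|f| > 1/2`.
-/

namespace Pool.Agent.Results.MP_9cbc66_an.SharpConstant

open Finset

/-- The discrete cube `{-1,1}^n`; `ℤˣ = {1,-1}`. -/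
abbrev Cube (n : ℕ) : Type := Fin n → ℤˣ

/-- `‖f‖_p = (2^{-n} ∑_x |f x|^p)^{1/p}`. -/
noncomputable def pnorm {n : ℕ} (p : ℝ) (f : Cube n → ℝ) : ℝ :=
  ((2 ^ n : ℝ)⁻¹ * ∑ x : Cube n, |f x| ^ p) ^ (1 / p)

/-- `f` is a 2-homogeneous polynomial: `f(x) = ∑_{i<j} a_ij x_i x_j`. -/
def IsTwoHom {n : ℕ} (f : Cube n → ℝ) : Prop :=
  ∃ a : Fin n → Fin n → ℝ, ∀ x : Cube n,
    f x = ∑ i : Fin n, ∑ j ∈ Finset.Ioi i, a i j * ((x i : ℤ) : ℝ) * ((x j : ℤ) : ℝ)

/-- All ratios `‖f‖₂ / ‖f‖₁`, over all `n ≥ 1` and all nonzero 2-homogeneous `f`. -/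
def ratios : Set ℝ :=
  {r | ∃ n : ℕ, 1 ≤ n ∧ ∃ f : Cube n → ℝ, IsTwoHom f ∧ f ≠ 0 ∧ r = pnorm 2 f / pnorm 1 f}

/-- `C*`, the supremum of the ratios. -/
noncomputable def Cstar : ℝ := sSup ratios

open Pool.Agent.Boole2

theorem pnorm_one {n : ℕ} (f : Cube n → ℝ) : pnorm 1 f = E (fun x => |f x|) := by
  unfold pnorm E
  simp only [Real.rpow_one, div_one, Fintype.card_fin]
  rw [mul_comm, div_eq_mul_inv]

theorem pnorm_two_sq {n : ℕ} (f : Cube n → ℝ) : pnorm 2 f ^ 2 = E (fun x => f x ^ 2) := by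
  unfold pnorm E
  have h : ∀ x : Cube n, |f x| ^ (2 : ℝ) = f x ^ 2 := by
    intro x
    rw [Real.rpow_two, sq_abs]
  simp only [h, Fintype.card_fin]
  have h0 : 0 ≤ (2 ^ n : ℝ)⁻¹ * ∑ x : Cube n, f x ^ 2 := by positivity
  rw [← Real.rpow_natCast, ← Real.rpow_mul h0]
  norm_num
  rw [mul_comm, div_eq_mul_inv]

theorem pnorm_nonneg {n : ℕ} (p : ℝ) (f : Cube n → ℝ) : 0 ≤ pnorm p f := by
  unfold pnorm
  apply Real.rpow_nonneg
  apply mul_nonneg (by positivity)
  exact Finset.sum_nonneg (fun x _ => Real.rpow_nonneg (abs_nonneg _) _)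

/-- the symmetric matrix of a 2-homogeneous polynomial -/
theorem exists_matrix {n : ℕ} (f : Cube n → ℝ) (hf : IsTwoHom f) :
    ∃ A : Fin n → Fin n → ℝ, SZ A ∧ ∀ x, f x = qf A x := by
  obtain ⟨a, ha⟩ := hf
  refine ⟨fun i j => if i < j then a i j else if j < i then a j i else 0, ⟨?_, ?_⟩, ?_⟩
  · intro i j
    rcases lt_trichotomy i j with h | h | h
    · simp [h, not_lt.mpr h.le]
    · subst h; simp
    · simp [h, not_lt.mpr h.le]
  · intro i; simp
  · intro x
    rw [ha x]
    unfold qf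
    have h1 : ∀ i j : Fin n, (if i < j then a i j else if j < i then a j i else 0) * sg (x i) * sg (x j)
        = (if i < j then a i j * sg (x i) * sg (x j) else 0)
          + (if j < i then a j i * sg (x j) * sg (x i) else 0) := by
      intro i j
      rcases lt_trichotomy i j with h | h | h
      · simp [h, not_lt.mpr h.le]
      · subst h; simp
      · simp only [h, not_lt.mpr h.le, if_true, if_false]; ring
    simp only [h1, Finset.sum_add_distrib]
    have h2 : ∑ i : Fin n, ∑ j : Fin n, (if j < i then a j i * sg (x j) * sg (x i) else 0)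
        = ∑ i : Fin n, ∑ j : Fin n, (if i < j then a i j * sg (x i) * sg (x j) else 0) := by
      rw [Finset.sum_comm]
    rw [h2]
    have h3 : ∀ i : Fin n, ∑ j ∈ Finset.Ioi i, a i j * ((x i : ℤ) : ℝ) * ((x j : ℤ) : ℝ)
        = ∑ j : Fin n, (if i < j then a i j * sg (x i) * sg (x j) else 0) := by
      intro i
      rw [← Finset.sum_filter]
      apply Finset.sum_congr
      · ext j; simp
      · intro j _; rfl
    simp only [h3]
    ring

/-- the inequality `‖f‖₂ ≤ 2 ‖c + f‖₁` -/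
theorem norm_le {n : ℕ} (f : Cube n → ℝ) (hf : IsTwoHom f) (c : ℝ) :
    pnorm 2 f ≤ 2 * pnorm 1 (fun x => c + f x) := by
  obtain ⟨A, hA, hfA⟩ := exists_matrix f hf
  have h1 : pnorm 2 f ^ 2 = nsq A := by
    rw [pnorm_two_sq, ← E_qf_sq A hA]
    congr 1; funext x; rw [hfA x]
  have h2 : pnorm 1 (fun x => c + f x) = mm A c := by
    rw [pnorm_one]
    unfold mm
    congr 1; funext x; rw [hfA x]
  have h3 := main_H A hA c
  rw [← h1, ← h2] at h3
  have h4 := pnorm_nonneg 1 (fun x => c + f x)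
  have h5 := pnorm_nonneg 2 f
  nlinarith

/-- the extremal form `(x₁+x₂)(x₃+x₄)` -/
def ex (x : Cube 4) : ℤ := ((x 0 : ℤ) + x 1) * (x 2 + x 3)

theorem ex_hom : IsTwoHom (fun x : Cube 4 => ((ex x : ℤ) : ℝ)) := by
  refine ⟨fun i j => if i ≤ 1 ∧ 2 ≤ j then 1 else 0, ?_⟩
  intro x
  have h0 : (Finset.Ioi (0 : Fin 4)) = {1, 2, 3} := by decide
  have h1 : (Finset.Ioi (1 : Fin 4)) = {2, 3} := by decide
  have h2 : (Finset.Ioi (2 : Fin 4)) = {3} := by decide
  have h3 : (Finset.Ioi (3 : Fin 4)) = ∅ := by decide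
  rw [Fin.sum_univ_four, h0, h1, h2, h3]
  simp [ex, Finset.sum_insert, Finset.sum_singleton]
  ring

theorem ex_one : pnorm 1 (fun x : Cube 4 => ((ex x : ℤ) : ℝ)) = 1 := by
  have h : ∑ x : Cube 4, |ex x| = 16 := by decide +kernel
  unfold pnorm
  simp only [Real.rpow_one, div_one]
  have h2 : ∑ x : Cube 4, |((ex x : ℤ) : ℝ)| = 16 := by
    have : ∑ x : Cube 4, |((ex x : ℤ) : ℝ)| = ((∑ x : Cube 4, |ex x| : ℤ) : ℝ) := by
      push_cast; rfl
    rw [this, h]; norm_num
  rw [h2]; norm_num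

theorem ex_two : pnorm 2 (fun x : Cube 4 => ((ex x : ℤ) : ℝ)) = 2 := by
  have h : ∑ x : Cube 4, ex x ^ 2 = 64 := by decide +kernel
  have h1 : pnorm 2 (fun x : Cube 4 => ((ex x : ℤ) : ℝ)) ^ 2 = 4 := by
    rw [pnorm_two_sq]
    unfold E
    have : ∑ x : Cube 4, ((ex x : ℤ) : ℝ) ^ 2 = ((∑ x : Cube 4, ex x ^ 2 : ℤ) : ℝ) := by
      push_cast; rfl
    rw [this, h]
    simp only [Fintype.card_fin]
    norm_num
  have h2 := pnorm_nonneg 2 (fun x : Cube 4 => ((ex x : ℤ) : ℝ))
  nlinarith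

theorem greatest : IsGreatest ratios 2 := by
  constructor
  · refine ⟨4, by norm_num, fun x => ((ex x : ℤ) : ℝ), ex_hom, ?_, ?_⟩
    · intro h
      have h1 := ex_one
      rw [h] at h1
      unfold pnorm at h1
      norm_num at h1
    · rw [ex_one, ex_two]; norm_num
  · rintro r ⟨n, hn, f, hf, hf0, rfl⟩
    have h1 := norm_le f hf 0
    simp only [zero_add] at h1
    rcases (pnorm_nonneg 1 f).eq_or_lt with h | h
    · have : pnorm 2 f / pnorm 1 f = 0 := by rw [← h]; simp
      rw [this]; norm_num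
    · rw [div_le_iff₀ h]
      exact h1

/-- **Main theorem.** -/
theorem result : Cstar = 2 ∧ IsGreatest ratios 2 :=
  ⟨greatest.csSup_eq, greatest⟩

end Pool.Agent.Results.MP_9cbc66_an.SharpConstant
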